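import Pool.Agent.MP_46f5ab_gt.PwMain

/-!
The Goldman bracket of two distinct non-zero powers `β ^ m`, `β ^ n` of a primitive class has
`2 |m n| SI(β)` terms, for every hyperbolic surface `ℍ / G` and every flat surface `ℂ / G`.
-/

open UpperHalfPlane MatrixGroups Pool.Agent.MP_46f5ab_gt

theorem Pool.Agent.MP_46f5ab_gt.Old.goldmanPowers :
    (∀ (G : Type) [Group G] [MulAction G ℍ] [ProperlyDiscontinuousSMul G ℍ],
      (∀ (g : G) (z : ℍ), g • z = z → g = 1) →
      (∀ g : G, ∃ M : SL(2, ℝ), ∀ z : ℍ, g • z = M • z) →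
      (IsFreeGroup G ∨ ∃ k : ℕ, Nonempty (G ≃* SurfaceGroup k)) →
      ∀ β : G, IsPrimitiveClass β → ∀ m n : ℤ, m ≠ 0 → n ≠ 0 → m ≠ n →
        (∃ c d : ℝ → ℍ, IsLiftedLoop UpperHalfPlane.coe (β ^ m) c ∧
          IsLiftedLoop UpperHalfPlane.coe (β ^ n) d ∧ MeetTransversally G UpperHalfPlane.coe c d) ∧
        ∀ c d : ℝ → ℍ, IsLiftedLoop UpperHalfPlane.coe (β ^ m) c →
          IsLiftedLoop UpperHalfPlane.coe (β ^ n) d → MeetTransversally G UpperHalfPlane.coe c d →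
          (meetings G c d).Finite ∧
            (numberOfTerms (goldmanBracket UpperHalfPlane.coe (β ^ m) (β ^ n) c d) : ℕ∞) =
              2 * ((m * n).natAbs : ℕ∞) * selfIntersection UpperHalfPlane.coe β) ∧
    ∀ (G : Type) [Group G] [MulAction G ℂ] [ProperlyDiscontinuousSMul G ℂ],
      (∀ (g : G) (z : ℂ), g • z = z → g = 1) →
      (∀ g : G, ∃ w : ℂ, ∀ z : ℂ, g • z = z + w) →
      ∀ β : G, IsPrimitiveClass β → ∀ m n : ℤ, m ≠ 0 → n ≠ 0 → m ≠ n →
        (∃ c d : ℝ → ℂ, IsLiftedLoop id (β ^ m) c ∧ IsLiftedLoop id (β ^ n) d ∧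
          MeetTransversally G id c d) ∧
        ∀ c d : ℝ → ℂ, IsLiftedLoop id (β ^ m) c → IsLiftedLoop id (β ^ n) d →
          MeetTransversally G id c d →
          (meetings G c d).Finite ∧
            (numberOfTerms (goldmanBracket id (β ^ m) (β ^ n) c d) : ℕ∞) =
              2 * ((m * n).natAbs : ℕ∞) * selfIntersection id β := by
  refine ⟨fun G _ _ _ h1 h2 h3 β hp m n hm hn hmn => ?_,
    fun G _ _ _ h1 h2 β hp m n hm hn hmn => ?_⟩
  · have F : Fuchs G (Homeomorph.refl ℍ) :=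
      ⟨h2, h1, fun _ _ hK hL => ProperlyDiscontinuousSMul.finite_disjoint_inter_image hK hL⟩
    exact F.mainPow (hasHoms_of_free_or_surface h3) hp hm hn hmn
  · exact mainPow_flat
      ⟨h1, fun _ _ hK hL => ProperlyDiscontinuousSMul.finite_disjoint_inter_image hK hL⟩ h2 hp
      hm hn hmn
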